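import Pool.Agent.J4H50.YZ.Stm
import Pool.Agent.J4H46.MS.Ops

set_option autoImplicit false

/-! Job Z5 of project YZ: the cone. -/

namespace Pool.Agent.J4H45.YZ

open PowerSeries Pool.Agent.W574.MO Pool.Agent.J4H46.MS Pool.Agent.J4H46.MT Pool.Agent.J4H50.YZ
open scoped PowerSeries

variable {M E : Type} [CommRing M] [CommRing E] [Algebra M E] {L : Mˣ}

theorem map_qqE (a n : ℕ) : PowerSeries.map (algebraMap M E) (qq L a n) = qq (LE L) a n := by
  rw [qq, qq, map_mul, map_pow, PowerSeries.map_C, PowerSeries.map_X, LE_inv]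

theorem map_geoE {a : ℕ} (ha : 1 ≤ a) (n : ℕ) : PowerSeries.map (algebraMap M E) (geo L a n) = geo (LE L) a n := by
  have h1 := congrArg (PowerSeries.map (algebraMap M E)) (geo_mul L ha n)
  rw [map_mul, map_sub, map_one, map_qqE] at h1
  have h2 := geo_mul (LE L : Eˣ) ha n
  linear_combination (geo (LE L : Eˣ) a n) * h1 - (PowerSeries.map (algebraMap M E) (geo L a n)) * h2

theorem map_qfE (a n : ℕ) : PowerSeries.map (algebraMap M E) (qf L a n) = qf (LE L) a n := by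
  unfold qf
  split_ifs with h
  · exact map_one _
  · rw [map_mul, map_qqE, map_geoE (by omega)]

theorem map_selfE (u : M⟦X⟧) : PowerSeries.map (algebraMap M M) u = u := by
  ext m
  rw [coeff_map]
  rfl

theorem map_denE {K : ℕ → ℕ → Prop} {x : M⟦X⟧} (hx : x ∈ DenRing L K) :
    PowerSeries.map (algebraMap M E) x ∈ DenRing (LE L) K := by
  have h1 : cm (Algebra.linearMap M E) x ∈ DenRing (LE L) K :=
    cm_mem (A := M) (B := E) (Algebra.linearMap M E) (L := L) (K := K) (by rw [LE_self]; exact hx)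
  have h2 : cm (Algebra.linearMap M E) x = PowerSeries.map (algebraMap M E) x := by
    ext m
    rw [coeff_cm, coeff_map]
    rfl
  rwa [h2] at h1

theorem qf_memE {A : Type} [CommRing A] {L : Aˣ} {K : ℕ → ℕ → Prop} {a n : ℕ} (ha : 1 ≤ a) (hn : 1 ≤ n)
    (hK : K a n) : qf L a n ∈ DenRing L K := by
  rw [qf, if_neg (by omega)]
  exact Subring.mul_mem _ (qq_mem _ _) (geo_mem ha hn hK)

theorem qf11E : (1 - qq L 1 1 : M⟦X⟧) * qf L 1 1 = qq L 1 1 := by
  rw [qf, if_neg one_ne_zero]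
  linear_combination (qq L 1 1) * geo_mul L (le_refl 1) 1

theorem Lqq : (C (L : M) : M⟦X⟧) * qq L 1 1 = X := by
  rw [qq, pow_one, pow_one, ← mul_assoc, ← map_mul, Units.mul_inv, map_one, one_mul]

theorem Lqn (d n : ℕ) : (C ((L : M) ^ n) : M⟦X⟧) * qq L d n = X ^ d := by
  rw [qq, ← mul_assoc, ← map_mul, ← Units.val_pow_eq_pow_val, ← Units.val_mul, inv_pow, mul_inv_cancel,
    Units.val_one, map_one, one_mul]

theorem XcancelE {A B : M⟦X⟧} (h : (1 - X) * A = (1 - X) * B) : A = B := by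
  have h1 : (PowerSeries.mk 1 : M⟦X⟧) * (1 - X) = 1 := PowerSeries.mk_one_mul_one_sub_eq_one M
  have h2 := congrArg (fun y => (PowerSeries.mk 1 : M⟦X⟧) * y) h
  simp only [← mul_assoc, h1, one_mul] at h2
  exact h2

theorem tot_oneE (S : CSys M E L) : S.tot 1 = (L : M) - 1 := by
  rw [← S.pc_one]
  exact S.tot_pc 1 le_rfl

theorem cm_totC (S : CSys M E L) (c : E) (u : M⟦X⟧) :
    cm S.tot (C c * PowerSeries.map (algebraMap M E) u) = C (S.tot c) * u := by
  rw [cm_C_mul, map_selfE]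

theorem cm_totM (S : CSys M E L) (u : M⟦X⟧) :
    cm S.tot (PowerSeries.map (algebraMap M E) u) = C ((L : M) - 1) * u := by
  have := cm_totC S 1 u
  rwa [map_one, one_mul, tot_oneE] at this

theorem t_Z5 : S_Z3 → S_Z4 → S_Z5 := by
  intro hZ3 hZ4 M E _ _ _ L S ι _ n d hn hd B A hB k hk Z K K' hKd hKK hDec
  classical
  choose R ρ hZ hR hσ hδ using hDec
  obtain ⟨δ, hδd⟩ : ∃ δ : ι → M⟦X⟧, δ = fun i => gtr (cm S.tot (Z i)) - ρ i := ⟨_, rfl⟩
  obtain ⟨lam, hlamd⟩ : ∃ lam : ι → M⟦X⟧, lam = fun i => cm (S.zr (S.pc (k i))) (Sc (LE L) n d (k i) (R i)) := ⟨_, rfl⟩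
  obtain ⟨R', hR'd⟩ : ∃ R' : ι → E⟦X⟧, R' = fun i =>
      C (S.pc (d + k i)) * PowerSeries.map (algebraMap M E) (Sc L n d (k i) (δ i) - 1)
      + qf (LE L) d n * cm (S.mu (S.pc d)) (Th (LE L) n d (k i) (R i)) +
        cm (S.cz d (k i)) (Sc (LE L) n d (k i) (R i)) := ⟨_, rfl⟩
  have h4 := fun i => hZ4 S n d (k i) hn hd (hk i) (R i) (ρ i) (Z i) (hZ i) (δ i) (congrFun hδd i) (lam i)
    (congrFun hlamd i) (R' i) (congrFun hR'd i)
  choose ρ' h41 h42 h43 using h4
  have hδ' : ∀ i, δ i ∈ DenRing L (K i) := fun i => by rw [hδd]; exact hδ i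
  -- membership
  have hThM : ∀ i (x : M⟦X⟧), x ∈ DenRing L (K i) → Th L n d (k i) x ∈ DenRing L K' := by
    intro i x hx
    refine Subring.sum_mem _ fun r hr => Subring.mul_mem _ (Subring.pow_mem _ X_mem _) ?_
    exact hZ3 L n (d + k i) (k i) r hn (by omega) (hk i) (Finset.mem_range.1 hr) (K i) K' (hKK i) x hx
  have hScM : ∀ i (x : M⟦X⟧), x ∈ DenRing L (K i) → Sc L n d (k i) x ∈ DenRing L K' := by
    intro i x hx
    exact hZ3 L n (d + k i) (k i) 0 hn (by omega) (hk i) (hk i) (K i) K' (hKK i) x hx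
  have hThE : ∀ i (x : E⟦X⟧), x ∈ DenRing (LE L) (K i) → Th (LE L) n d (k i) x ∈ DenRing (LE L) K' := by
    intro i x hx
    refine Subring.sum_mem _ fun r hr => Subring.mul_mem _ (Subring.pow_mem _ X_mem _) ?_
    exact hZ3 (LE L) n (d + k i) (k i) r hn (by omega) (hk i) (Finset.mem_range.1 hr) (K i) K' (hKK i) x hx
  have hScE : ∀ i (x : E⟦X⟧), x ∈ DenRing (LE L) (K i) → Sc (LE L) n d (k i) x ∈ DenRing (LE L) K' := by
    intro i x hx
    exact hZ3 (LE L) n (d + k i) (k i) 0 hn (by omega) (hk i) (hk i) (K i) K' (hKK i) x hx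
  have hlam : ∀ i, lam i ∈ DenRing L K' := fun i => by
    rw [hlamd]
    exact cm_mem' _ (hScE i _ (hR i))
  have hq : qf L d n ∈ DenRing L K' := qf_memE hd hn hKd
  have hqE : qf (LE L : Eˣ) d n ∈ DenRing (LE L) K' := qf_memE hd hn hKd
  have hR' : ∀ i, R' i ∈ DenRing (LE L) K' := fun i => by
    rw [hR'd]
    exact Subring.add_mem _ (Subring.add_mem _ (Subring.mul_mem _ (C_mem _) (map_denE (Subring.sub_mem _
      (hScM i _ (hδ' i)) (Subring.one_mem _)))) (Subring.mul_mem _ hqE (cm_mem _ (hThE i _ (hR i)))))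
      (cm_mem _ (hScE i _ (hR i)))
  obtain ⟨b, hb⟩ : ∃ b : M, b = (∑ i ∈ Finset.range n, (L : M) ^ i) - A - (Fintype.card ι : M) := ⟨_, rfl⟩
  obtain ⟨ρt, hρt⟩ : ∃ ρt : M⟦X⟧, ρt = C (b * ((L : M) - 1)) * (qf L d n * qf L 1 1) + ∑ i, ρ' i := ⟨_, rfl⟩
  have hdec : coneM S n d B A k Z = (C B * qf (LE L) d n + ∑ i, R' i) + PowerSeries.map (algebraMap M E) ρt := by
    unfold coneM
    rw [← hb, hρt, map_add, map_sum]
    simp only [h41, Finset.sum_add_distrib]
    ring
  have h1w : (1 - qq L 1 1) * ρt = C (b * ((L : M) - 1)) * (qf L d n * qq L 1 1) + ∑ i, (1 - qq L 1 1) * ρ' i := by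
    rw [hρt, mul_add, Finset.mul_sum]
    linear_combination (C (b * ((L : M) - 1)) * qf L d n) * qf11E (L := L)
  refine ⟨C B * qf (LE L) d n + ∑ i, R' i, ρt, hdec, ?_, ?_, ?_⟩
  · exact Subring.add_mem _ (Subring.mul_mem _ (C_mem _) hqE) (Subring.sum_mem _ fun i _ => hR' i)
  · rw [h1w]
    refine Subring.add_mem _ (Subring.mul_mem _ (C_mem _) (Subring.mul_mem _ hq (qq_mem _ _)))
      (Subring.sum_mem _ fun i _ => ?_)
    rw [h42]
    exact Subring.add_mem _ (Subring.mul_mem _ (C_mem _) (Subring.add_mem _ (Subring.mul_mem _ hq (hThM i _ (hσ i)))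
      (hScM i _ (hσ i)))) (Subring.mul_mem _ (qq_mem _ _) (hlam i))
  · have e : gtr (cm S.tot (coneM S n d B A k Z)) - ρt =
        (∑ j ∈ Finset.range d, (X : M⟦X⟧) ^ j) * geo L d n +
          C ((L : M) - 1) * (qf L d n * (C b + ∑ i, Th L n d (k i) (δ i))) + ∑ i, lam i := by
      apply XcancelE
      have h1 := gtr_eq (cm S.tot (coneM S n d B A k Z))
      have h2 : cm S.tot (coneM S n d B A k Z) = C (((L : M) - 1) * A) * qf L d n + ∑ i, cm S.tot (R' i) +
          C ((L : M) - 1) * ρt := by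
        rw [hdec, cm_add, cm_add, cm_totM, ← map_qfE, cm_totC, hB]
        congr 2
        exact map_sum (cmH S.tot) R' Finset.univ
      have h5 : (∑ i, cm S.tot (R' i)) + C (L : M) * ∑ i, (1 - qq L 1 1) * ρ' i =
          C ((L : M) - 1) * (qf L d n * ((Fintype.card ι : M⟦X⟧) - (1 - X) * ∑ i, Th L n d (k i) (δ i))) -
            (1 - X) * ∑ i, lam i := by
        rw [Finset.mul_sum, ← Finset.sum_add_distrib, Finset.sum_congr rfl (fun i _ => h43 i),
          Finset.sum_sub_distrib, ← Finset.mul_sum, ← Finset.mul_sum, ← Finset.mul_sum, Finset.sum_sub_distrib,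
          ← Finset.mul_sum, Finset.sum_const, Finset.card_univ, nsmul_eq_mul, mul_one]
      have h6 := geo_mul L hd n
      have h7 := Lqn (L := L) d n
      have h8 := Lqq (L := L)
      have h9 : qf L d n = qq L d n * geo L d n := by rw [qf, if_neg (by omega)]
      have h10 : (1 - X) * (∑ j ∈ Finset.range d, (X : M⟦X⟧) ^ j) = 1 - X ^ d := mul_neg_geom_sum _ _
      have h11 : (C (L : M) - 1 : M⟦X⟧) * (C A + C b + (Fintype.card ι : M⟦X⟧)) = C ((L : M) ^ n) - 1 := by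
        have a1 : ((L : M) - 1) * (A + b + (Fintype.card ι : M)) = (L : M) ^ n - 1 := by
          rw [hb, ← mul_geom_sum]
          ring
        have a2 := congrArg (C : M → M⟦X⟧) a1
        simpa only [map_mul, map_sub, map_add, map_one, map_natCast] using a2
      have hC : (C ((L : M) - 1) : M⟦X⟧) = C (L : M) - 1 := by rw [map_sub, map_one]
      generalize gtr (cm S.tot (coneM S n d B A k Z)) = gt at h1 ⊢
      rw [h2] at h1
      rw [map_mul, hC] at h1 h1w
      rw [hC] at h5 ⊢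
      set cL := (C (L : M) : M⟦X⟧)
      set cb := (C b : M⟦X⟧)
      set cA := (C A : M⟦X⟧)
      set sR := ∑ i, cm S.tot (R' i)
      set sρ := ∑ i, (1 - qq L 1 1) * ρ' i
      set sT := ∑ i, Th L n d (k i) (δ i)
      set sl := ∑ i, lam i
      set w := (qq L 1 1 : M⟦X⟧)
      set q := (qq L d n : M⟦X⟧)
      set ge := (geo L d n : M⟦X⟧)
      set cn := (C ((L : M) ^ n) : M⟦X⟧)
      set ca := (Fintype.card ι : M⟦X⟧)
      set F := (qf L d n : M⟦X⟧)
      linear_combination h1 - cL * h1w - h5 + (-ρt - cb * (cL - 1) * F) * h8 - F * h11 + (1 - cn) * h9 - ge * h7 - h6 -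
        ge * h10
    rw [e]
    have hge : geo L d n ∈ DenRing L K' := geo_mem hd hn hKd
    exact Subring.add_mem _ (Subring.add_mem _ (Subring.mul_mem _ (Subring.sum_mem _ fun j _ =>
      Subring.pow_mem _ X_mem _) hge) (Subring.mul_mem _ (C_mem _) (Subring.mul_mem _ hq (Subring.add_mem _ (C_mem _)
      (Subring.sum_mem _ fun i _ => hThM i _ (hδ' i)))))) (Subring.sum_mem _ fun i _ => hlam i)

end Pool.Agent.J4H45.YZ
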